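import Pool.Agent.H958.LR.Stm

/-! LR-TAIL (helper353). -/

namespace Pool.Agent.H353.LR.Tail

open MeasureTheory ProbabilityTheory Set Filter
open scoped ENNReal NNReal Nat Topology
open Pool.Agent.H958.LR

variable {V : Type}

theorem sum_step (u : ℝ≥0∞) (K : V → V → ℝ≥0∞) (A : ℝ≥0∞) (hK : ∀ x, ∑' y, K x y ≤ A)
    (g : V → ℝ≥0∞) : ∑' y, ∑' x, g x * (u * K x y) ≤ (∑' x, g x) * (u * A) := by
  rw [ENNReal.tsum_comm]
  calc ∑' x, ∑' y, g x * (u * K x y) = ∑' x, g x * (u * ∑' y, K x y) := by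
        refine tsum_congr fun x => ?_
        rw [ENNReal.tsum_mul_left, ENNReal.tsum_mul_left]
    _ ≤ ∑' x, g x * (u * A) := by
        refine ENNReal.tsum_le_tsum fun x => ?_
        gcongr
        exact hK x
    _ = _ := ENNReal.tsum_mul_right

theorem part1 (K : V → V → ℝ≥0∞) (A : ℝ≥0∞) (o : V) (hK : ∀ x, ∑' y, K x y ≤ A)
    (u : ℝ≥0∞) (j : ℕ) : ∑' y, wb u K o j y ≤ (1 + u * A) ^ j := by
  classical
  induction j with
  | zero =>
    simp only [wb, pow_zero]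
    rw [tsum_eq_single o (fun y hy => if_neg hy)]
    simp
  | succ j ih =>
    calc ∑' y, wb u K o (j + 1) y = ∑' y, wb u K o j y + ∑' y, ∑' x, wb u K o j x * (u * K x y) := by
          simp only [wb]
          rw [ENNReal.tsum_add]
      _ ≤ ∑' y, wb u K o j y + (∑' y, wb u K o j y) * (u * A) := by
          gcongr
          exact sum_step u K A hK _
      _ = (∑' y, wb u K o j y) * (1 + u * A) := by rw [mul_add, mul_one]
      _ ≤ (1 + u * A) ^ j * (1 + u * A) := by gcongr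
      _ = _ := (pow_succ _ _).symm

/-- the powers of the kernel -/
noncomputable def Kp (K : V → V → ℝ≥0∞) (o : V) : ℕ → V → ℝ≥0∞
  | 0, y => open Classical in if y = o then 1 else 0
  | i + 1, y => ∑' x, Kp K o i x * K x y

/-- `1 / i!` -/
noncomputable def fi (i : ℕ) : ℝ≥0∞ := ((i ! : ℕ) : ℝ≥0∞)⁻¹

theorem fi_zero : fi 0 = 1 := by simp [fi]

theorem fi_succ (i : ℕ) : fi (i + 1) * ((i : ℝ≥0∞) + 1) = fi i := by
  unfold fi
  rw [Nat.factorial_succ, Nat.cast_mul, Nat.cast_succ, ENNReal.mul_inv (Or.inl (by simp))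
    (Or.inl (by finiteness)), mul_comm _ (((i ! : ℕ) : ℝ≥0∞)⁻¹), mul_assoc,
    ENNReal.inv_mul_cancel (by simp) (by finiteness), mul_one]

theorem bern (a u : ℝ≥0∞) (n : ℕ) :
    a ^ (n + 1) + ((n : ℝ≥0∞) + 1) * a ^ n * u ≤ (a + u) ^ (n + 1) := by
  induction n with
  | zero => simp
  | succ n ih =>
    calc a ^ (n + 1 + 1) + (((n + 1 : ℕ) : ℝ≥0∞) + 1) * a ^ (n + 1) * u
        ≤ a ^ (n + 1 + 1) + (((n + 1 : ℕ) : ℝ≥0∞) + 1) * a ^ (n + 1) * u +
          ((n : ℝ≥0∞) + 1) * a ^ n * u ^ 2 := le_self_add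
      _ = (a ^ (n + 1) + ((n : ℝ≥0∞) + 1) * a ^ n * u) * (a + u) := by push_cast; ring
      _ ≤ (a + u) ^ (n + 1) * (a + u) := by gcongr
      _ = _ := (pow_succ _ _).symm

theorem dom (K : V → V → ℝ≥0∞) (o : V) (u : ℝ≥0∞) (j : ℕ) (y : V) :
    wb u K o j y ≤ ∑' i, fi i * ((j : ℝ≥0∞) * u) ^ i * Kp K o i y := by
  induction j generalizing y with
  | zero =>
    refine le_trans ?_ (ENNReal.le_tsum 0)
    simp [fi_zero, wb, Kp]
  | succ j ih =>
    have h1 : wb u K o (j + 1) y ≤ (∑' i, fi i * ((j : ℝ≥0∞) * u) ^ i * Kp K o i y) +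
        ∑' x, (∑' i, fi i * ((j : ℝ≥0∞) * u) ^ i * Kp K o i x) * (u * K x y) := by
      show wb u K o j y + ∑' x, wb u K o j x * (u * K x y) ≤ _
      refine add_le_add (ih y) (ENNReal.tsum_le_tsum fun x => ?_)
      gcongr
      exact ih x
    refine h1.trans ?_
    have h2 : ∑' x, (∑' i, fi i * ((j : ℝ≥0∞) * u) ^ i * Kp K o i x) * (u * K x y) =
        ∑' i, fi i * ((j : ℝ≥0∞) * u) ^ i * u * Kp K o (i + 1) y := by
      simp only [← ENNReal.tsum_mul_right]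
      rw [ENNReal.tsum_comm]
      refine tsum_congr fun i => ?_
      show _ = fi i * ((j : ℝ≥0∞) * u) ^ i * u * ∑' x, Kp K o i x * K x y
      rw [← ENNReal.tsum_mul_left]
      refine tsum_congr fun x => ?_
      ring
    rw [h2, tsum_eq_zero_add' (f := fun i => fi i * ((j : ℝ≥0∞) * u) ^ i * Kp K o i y)
      ENNReal.summable, tsum_eq_zero_add' (f := fun i => fi i * (((j + 1 : ℕ) : ℝ≥0∞) * u) ^ i *
      Kp K o i y) ENNReal.summable, add_assoc, ← ENNReal.tsum_add]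
    refine add_le_add (by simp) (ENNReal.tsum_le_tsum fun i => ?_)
    have h3 := bern ((j : ℝ≥0∞) * u) u i
    have h4 : ((j + 1 : ℕ) : ℝ≥0∞) * u = (j : ℝ≥0∞) * u + u := by push_cast; ring
    rw [h4]
    calc fi (i + 1) * ((j : ℝ≥0∞) * u) ^ (i + 1) * Kp K o (i + 1) y +
        fi i * ((j : ℝ≥0∞) * u) ^ i * u * Kp K o (i + 1) y
        = fi (i + 1) * (((j : ℝ≥0∞) * u) ^ (i + 1) +
          ((i : ℝ≥0∞) + 1) * ((j : ℝ≥0∞) * u) ^ i * u) * Kp K o (i + 1) y := by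
          rw [← fi_succ i]; ring
      _ ≤ fi (i + 1) * ((j : ℝ≥0∞) * u + u) ^ (i + 1) * Kp K o (i + 1) y := by gcongr

theorem Kp_sum (K : V → V → ℝ≥0∞) (A : ℝ≥0∞) (o : V) (hK : ∀ x, ∑' y, K x y ≤ A) (i : ℕ) :
    ∑' y, Kp K o i y ≤ A ^ i := by
  classical
  induction i with
  | zero =>
    simp only [Kp, pow_zero]
    rw [tsum_eq_single o (fun y hy => if_neg hy)]
    simp
  | succ i ih =>
    have h := sum_step 1 K A hK (Kp K o i)
    simp only [one_mul] at h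
    calc ∑' y, Kp K o (i + 1) y = ∑' y, ∑' x, Kp K o i x * K x y := rfl
      _ ≤ (∑' y, Kp K o i y) * A := h
      _ ≤ A ^ i * A := by gcongr
      _ = _ := (pow_succ _ _).symm

theorem exp_fin (x : ℝ≥0∞) (hx : x ≠ ∞) : ∑' i, fi i * x ^ i ≠ ∞ := by
  lift x to ℝ≥0 using hx
  have h1 : ∀ i, fi i * (x : ℝ≥0∞) ^ i = ((x ^ i / (i ! : ℕ) : ℝ≥0) : ℝ≥0∞) := by
    intro i
    unfold fi
    have h0 : ((i ! : ℕ) : ℝ≥0) ≠ 0 := by exact_mod_cast Nat.factorial_ne_zero i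
    rw [ENNReal.coe_div h0, ENNReal.div_eq_inv_mul]
    simp
  simp only [h1]
  rw [ENNReal.tsum_coe_ne_top_iff_summable, ← NNReal.summable_coe]
  have h2 := Real.summable_pow_div_factorial (x : ℝ)
  refine h2.congr fun i => ?_
  push_cast
  rfl

/-- **[TAIL]** -/
theorem s_tail : S_TAIL := by
  intro V _ K A o hA hK
  refine ⟨fun u j => part1 K A o hK u j, ?_⟩
  intro c ε hc hε
  set g : V → ℝ≥0∞ := fun y => ∑' i, fi i * c ^ i * Kp K o i y with hg
  have hgs : ∑' y, g y ≠ ∞ := by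
    have h1 : ∑' y, g y ≤ ∑' i, fi i * (c * A) ^ i := by
      rw [hg, ENNReal.tsum_comm]
      refine ENNReal.tsum_le_tsum fun i => ?_
      rw [ENNReal.tsum_mul_left, mul_pow, ← mul_assoc]
      gcongr
      exact Kp_sum K A o hK i
    exact ne_top_of_le_ne_top (exp_fin _ (ENNReal.mul_ne_top hc hA)) h1
  set h : V → ℝ≥0∞ := fun z => ∑' y, g y * K y z with hh
  have hhs : ∑' z, h z ≠ ∞ := by
    have h1 := sum_step 1 K A hK g
    simp only [one_mul] at h1
    exact ne_top_of_le_ne_top (ENNReal.mul_ne_top hgs hA) h1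
  have hchs : ∑' z, c * h z ≠ ∞ := by
    rw [ENNReal.tsum_mul_left]
    exact ENNReal.mul_ne_top hc hhs
  have ht := ENNReal.tendsto_tsum_compl_atTop_zero hchs
  have hev : ∀ᶠ s : Finset V in atTop, ∑' b : {x // x ∉ s}, c * h b ≤ ε :=
    ht.eventually_le_const (pos_iff_ne_zero.2 hε)
  obtain ⟨Λ, hΛ, ho⟩ := (hev.and (eventually_ge_atTop {o})).exists
  refine ⟨Λ, ho (Finset.mem_singleton_self o), ?_⟩
  intro n u hnu
  have h1 : ∀ j ∈ Finset.range n, ∑' y, wb u K o j y * ∑' z : {z : V // z ∉ Λ}, u * K y z ≤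
      u * ∑' z : {z : V // z ∉ Λ}, h z := by
    intro j hj
    have hjn : j ≤ n := (Finset.mem_range.1 hj).le
    calc ∑' y, wb u K o j y * ∑' z : {z : V // z ∉ Λ}, u * K y z
        ≤ ∑' y, g y * ∑' z : {z : V // z ∉ Λ}, u * K y z := by
          refine ENNReal.tsum_le_tsum fun y => ?_
          gcongr
          refine (dom K o u j y).trans (ENNReal.tsum_le_tsum fun i => ?_)
          have : (j : ℝ≥0∞) * u ≤ c := le_trans (by gcongr) hnu
          gcongr
      _ = u * ∑' z : {z : V // z ∉ Λ}, h z := by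
          simp only [hh, ← ENNReal.tsum_mul_left]
          rw [ENNReal.tsum_comm]
          refine tsum_congr fun z => tsum_congr fun y => ?_
          ring
  calc ∑ j ∈ Finset.range n, ∑' y, wb u K o j y * ∑' z : {z : V // z ∉ Λ}, u * K y z
      ≤ ∑ j ∈ Finset.range n, u * ∑' z : {z : V // z ∉ Λ}, h z := Finset.sum_le_sum h1
    _ = (n * u) * ∑' z : {z : V // z ∉ Λ}, h z := by
        rw [Finset.sum_const, Finset.card_range, nsmul_eq_mul, mul_assoc]
    _ ≤ c * ∑' z : {z : V // z ∉ Λ}, h z := by gcongr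
    _ = ∑' z : {z : V // z ∉ Λ}, c * h z := ENNReal.tsum_mul_left.symm
    _ ≤ ε := hΛ

end Pool.Agent.H353.LR.Tail
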